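import Mathlib

set_option autoImplicit false

/-! Path covers of finite graphs and deletion of edges. -/

namespace Pool.Agent.X59.PC

open Finset

variable {V : Type*}

/-- `L` is a path cover of `H`: a list of nonempty lists of vertices, consecutive entries of each
being adjacent in `H`, such that every vertex occurs exactly once in exactly one of them. -/
def IsPathCover (H : SimpleGraph V) (L : List (List V)) : Prop :=
  (∀ l ∈ L, l ≠ [] ∧ l.IsChain H.Adj) ∧ L.flatten.Nodup ∧ ∀ v, v ∈ L.flatten

/-- The path cover number: the least number of paths in a path cover. -/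
noncomputable def pathCoverNumber (H : SimpleGraph V) : ℕ :=
  sInf {k | ∃ L : List (List V), L.length = k ∧ IsPathCover H L}

theorem exists_cover [Fintype V] (H : SimpleGraph V) : ∃ L : List (List V), IsPathCover H L := by
  refine ⟨(Finset.univ : Finset V).toList.map (fun v => [v]), ?_, ?_, ?_⟩
  · intro l hl
    obtain ⟨v, -, rfl⟩ := List.mem_map.mp hl
    exact ⟨by simp, by simp⟩
  · have : ((Finset.univ : Finset V).toList.map (fun v => [v])).flatten
        = (Finset.univ : Finset V).toList := by
      induction (Finset.univ : Finset V).toList with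
      | nil => rfl
      | cons a t ih => simp [ih]
    rw [this]
    exact Finset.nodup_toList _
  · intro v
    rw [List.mem_flatten]
    exact ⟨[v], List.mem_map.mpr ⟨v, by simp, rfl⟩, by simp⟩

theorem pcn_spec [Fintype V] (H : SimpleGraph V) :
    ∃ L : List (List V), L.length = pathCoverNumber H ∧ IsPathCover H L := by
  have hne : {k | ∃ L : List (List V), L.length = k ∧ IsPathCover H L}.Nonempty := by
    obtain ⟨L, hL⟩ := exists_cover H
    exact ⟨L.length, L, rfl, hL⟩
  exact Nat.sInf_mem hne

theorem pcn_le (H : SimpleGraph V) {L : List (List V)} (hL : IsPathCover H L) :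
    pathCoverNumber H ≤ L.length :=
  Nat.sInf_le ⟨L, rfl, hL⟩

theorem pcn_anti [Fintype V] {H H' : SimpleGraph V} (h : H ≤ H') :
    pathCoverNumber H' ≤ pathCoverNumber H := by
  obtain ⟨L, hL, h1, h2, h3⟩ := pcn_spec H
  rw [← hL]
  refine pcn_le H' ⟨fun l hl => ⟨(h1 l hl).1, ?_⟩, h2, h3⟩
  exact (h1 l hl).2.imp (fun a b hab => h hab)

/-- Deleting the edge `xy` keeps a list a chain unless it contains both `x` and `y`. -/
theorem chain_delete {H : SimpleGraph V} {x y : V} : ∀ {l : List V}, l.IsChain H.Adj →
    (x ∉ l ∨ y ∉ l) → l.IsChain (H.deleteEdges {s(x, y)}).Adj := by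
  intro l hl hxy
  rw [List.isChain_iff_getElem] at hl ⊢
  intro i hi
  rw [SimpleGraph.deleteEdges_adj]
  refine ⟨hl i hi, ?_⟩
  intro hmem
  rw [Set.mem_singleton_iff] at hmem
  have ha : l[i] ∈ l := List.getElem_mem _
  have hb : l[i + 1] ∈ l := List.getElem_mem _
  rcases Sym2.eq_iff.mp hmem with ⟨h1, h2⟩ | ⟨h1, h2⟩
  · rw [h1] at ha
    rw [h2] at hb
    rcases hxy with h | h
    · exact h ha
    · exact h hb
  · rw [h1] at ha
    rw [h2] at hb
    rcases hxy with h | h
    · exact h hb
    · exact h ha

/-- Deleting one edge raises the path cover number by at most one. -/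
theorem pcn_deleteEdge [Fintype V] (H : SimpleGraph V) (e : Sym2 V) :
    pathCoverNumber (H.deleteEdges {e}) ≤ pathCoverNumber H + 1 := by
  obtain ⟨L, hL, h1, h2, h3⟩ := pcn_spec H
  induction e using Sym2.ind with
  | _ x y =>
  by_cases hall : ∀ l ∈ L, l.IsChain (H.deleteEdges {s(x, y)}).Adj
  · have := pcn_le (H.deleteEdges {s(x, y)}) (L := L) ⟨fun l hl => ⟨(h1 l hl).1, hall l hl⟩, h2, h3⟩
    omega
  · push Not at hall
    obtain ⟨l, hl, hnc⟩ := hall
    have hlH := (h1 l hl).2
    -- the failing place
    have hex : ∃ (l1 l2 : List V) (a b : V), l = l1 ++ a :: b :: l2 ∧ s(a, b) = s(x, y) := by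
      rw [List.isChain_iff_getElem] at hnc
      push Not at hnc
      obtain ⟨i, hi, hnadj⟩ := hnc
      have hadj := (List.isChain_iff_getElem.mp hlH) i hi
      refine ⟨l.take i, l.drop (i + 2), l[i], l[i + 1], ?_, ?_⟩
      · conv_lhs => rw [← List.take_append_drop i l]
        congr 1
        rw [List.drop_eq_getElem_cons (by omega), List.drop_eq_getElem_cons (by omega)]
      · rw [SimpleGraph.deleteEdges_adj] at hnadj
        push Not at hnadj
        exact hnadj hadj
    obtain ⟨l1, l2, a, b, hlab, hab⟩ := hex
    have hdel : H.deleteEdges {s(x, y)} = H.deleteEdges {s(a, b)} := by rw [hab]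
    rw [hdel]
    obtain ⟨A, B, hAB⟩ := List.append_of_mem hl
    subst hlab
    rw [hAB] at h2 h3
    simp only [List.flatten_append, List.flatten_cons] at h2 h3
    have hflat : (A ++ (l1 ++ [a]) :: (b :: l2) :: B).flatten
        = A.flatten ++ ((l1 ++ a :: b :: l2) ++ B.flatten) := by
      simp [List.flatten_append, List.flatten_cons, List.append_assoc]
    have hcov : IsPathCover (H.deleteEdges {s(a, b)}) (A ++ (l1 ++ [a]) :: (b :: l2) :: B) := by
      have hnd := h2
      rw [List.nodup_append] at hnd
      obtain ⟨hA, hrest, hdisj⟩ := hnd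
      rw [List.nodup_append] at hrest
      obtain ⟨hmid, hB, hdisj2⟩ := hrest
      have haA : a ∉ A.flatten := fun h => hdisj a h a (by simp) rfl
      have haB : a ∉ B.flatten := fun h => hdisj2 a (by simp) a h rfl
      have hbl1 : b ∉ l1 ++ [a] := by
        intro h
        have hsplit : l1 ++ a :: b :: l2 = (l1 ++ [a]) ++ (b :: l2) := by simp
        rw [hsplit, List.nodup_append] at hmid
        exact hmid.2.2 b h b (by simp) rfl
      have hal2 : a ∉ b :: l2 := by
        intro h
        have hsplit : l1 ++ a :: b :: l2 = (l1 ++ [a]) ++ (b :: l2) := by simp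
        rw [hsplit, List.nodup_append] at hmid
        exact hmid.2.2 a (by simp) a h rfl
      have hch : (l1 ++ a :: b :: l2).IsChain H.Adj := hlH
      have hsplit : l1 ++ a :: b :: l2 = (l1 ++ [a]) ++ (b :: l2) := by simp
      rw [hsplit, List.isChain_append] at hch
      refine ⟨?_, ?_, ?_⟩
      · intro m hm
        rw [List.mem_append, List.mem_cons, List.mem_cons] at hm
        rcases hm with hm | rfl | rfl | hm
        · have hmL : m ∈ L := by rw [hAB]; simp [hm]
          refine ⟨(h1 m hmL).1, chain_delete (h1 m hmL).2 (Or.inl ?_)⟩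
          intro h
          exact haA (List.mem_flatten.mpr ⟨m, hm, h⟩)
        · exact ⟨by simp, chain_delete hch.1 (Or.inr hbl1)⟩
        · exact ⟨by simp, chain_delete hch.2.1 (Or.inl hal2)⟩
        · have hmL : m ∈ L := by rw [hAB]; simp [hm]
          refine ⟨(h1 m hmL).1, chain_delete (h1 m hmL).2 (Or.inl ?_)⟩
          intro h
          exact haB (List.mem_flatten.mpr ⟨m, hm, h⟩)
      · rw [hflat]; exact h2
      · rw [hflat]; exact h3
    have := pcn_le _ hcov
    rw [hAB] at hL
    simp only [List.length_append, List.length_cons] at this hL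
    omega

/-- Discrete continuity: between `G` and `G - F` every intermediate path cover number is attained. -/
theorem exists_between [Fintype V] [DecidableEq V] (G : SimpleGraph V) (k : ℕ) :
    ∀ (F : Finset (Sym2 V)), pathCoverNumber G ≤ k →
      k ≤ pathCoverNumber (G.deleteEdges (F : Set (Sym2 V))) →
      ∃ F' ⊆ F, pathCoverNumber (G.deleteEdges (F' : Set (Sym2 V))) = k := by
  intro F
  induction F using Finset.induction_on with
  | empty =>
    intro h1 h2
    refine ⟨∅, subset_rfl, ?_⟩
    simp only [coe_empty, SimpleGraph.deleteEdges_empty] at h2 ⊢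
    omega
  | insert e F he ih =>
    intro h1 h2
    by_cases h : k ≤ pathCoverNumber (G.deleteEdges (F : Set (Sym2 V)))
    · obtain ⟨F', hF', h3⟩ := ih h1 h
      exact ⟨F', hF'.trans (Finset.subset_insert _ _), h3⟩
    · refine ⟨insert e F, subset_rfl, le_antisymm ?_ h2⟩
      have h3 : G.deleteEdges ((insert e F : Finset (Sym2 V)) : Set (Sym2 V))
          = (G.deleteEdges (F : Set (Sym2 V))).deleteEdges {e} := by
        rw [SimpleGraph.deleteEdges_deleteEdges]
        congr 1
        ext z
        simp
      rw [h3]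
      have := pcn_deleteEdge (G.deleteEdges (F : Set (Sym2 V))) e
      omega

/-- Isolating the vertices of `A` forces more than `|A|` paths. -/
theorem card_lt_pcn [Fintype V] [DecidableEq V] (H : SimpleGraph V) (A : Finset V)
    (hA : ∀ a ∈ A, ∀ b, ¬ H.Adj a b) (hlt : A.card < Fintype.card V) :
    A.card + 1 ≤ pathCoverNumber H := by
  obtain ⟨L, hL, h1, h2, h3⟩ := pcn_spec H
  rw [← hL]
  obtain ⟨b, hb⟩ : ∃ b, b ∉ A := by
    by_contra hcon
    push Not at hcon
    have : A = Finset.univ := Finset.eq_univ_iff_forall.mpr hcon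
    rw [this, Finset.card_univ] at hlt
    exact lt_irrefl _ hlt
  obtain ⟨lb, hlb, hblb⟩ := List.mem_flatten.mp (h3 b)
  have hsing : ∀ a ∈ A, [a] ∈ L := by
    intro a ha
    obtain ⟨l, hl, hal⟩ := List.mem_flatten.mp (h3 a)
    obtain ⟨s, t, rfl⟩ := List.append_of_mem hal
    have hch := (h1 _ hl).2
    have hs : s = [] := by
      rcases List.eq_nil_or_concat s with rfl | ⟨s', c, rfl⟩
      · rfl
      · exfalso
        have : (s' ++ [c] ++ a :: t).IsChain H.Adj := by simpa using hch
        rw [List.isChain_append] at this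
        have h5 := this.2.2 c (by simp) a (by simp)
        exact hA a ha c h5.symm
    subst hs
    have ht : t = [] := by
      cases t with
      | nil => rfl
      | cons c t' =>
        exfalso
        simp only [List.nil_append] at hch
        rw [List.isChain_cons_cons] at hch
        exact hA a ha c hch.1
    subst ht
    simpa using hl
  have hsub : insert lb (A.image (fun a => [a])) ⊆ L.toFinset := by
    intro l hl
    rw [Finset.mem_insert] at hl
    rw [List.mem_toFinset]
    rcases hl with rfl | hl
    · exact hlb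
    · obtain ⟨a, ha, rfl⟩ := Finset.mem_image.mp hl
      exact hsing a ha
  have hnot : lb ∉ A.image (fun a => [a]) := by
    intro h
    obtain ⟨a, ha, h5⟩ := Finset.mem_image.mp h
    rw [← h5] at hblb
    rw [List.mem_singleton] at hblb
    exact hb (hblb ▸ ha)
  calc A.card + 1 = (insert lb (A.image (fun a => [a]))).card := by
        rw [Finset.card_insert_of_notMem hnot, Finset.card_image_of_injective]
        intro a b h
        simpa using h
    _ ≤ L.toFinset.card := Finset.card_le_card hsub
    _ ≤ L.length := List.toFinset_card_le _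

/-- The sizes of the edge sets whose deletion leaves a graph of path cover number `k`. -/
def deletionSizes (G : SimpleGraph V) (k : ℕ) : Set ℕ :=
  {m | ∃ F : Finset (Sym2 V), (F : Set (Sym2 V)) ⊆ G.edgeSet ∧ F.card = m ∧
    pathCoverNumber (G.deleteEdges (F : Set (Sym2 V))) = k}

/-- If `f_k(G)` exists then it is at most the sum of any `k - 1` degrees. -/
theorem least_le_sum [Fintype V] [DecidableEq V] (G : SimpleGraph V) [DecidableRel G.Adj]
    (k m : ℕ) (hm : IsLeast (deletionSizes G k) m) (A : Finset V) (hA : A.card + 1 = k)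
    (hk : k ≤ Fintype.card V) : m ≤ ∑ a ∈ A, G.degree a := by
  obtain ⟨⟨F0, hF0, -, hF0k⟩, hleast⟩ := hm
  have hGk : pathCoverNumber G ≤ k := by
    rw [← hF0k]
    exact pcn_anti (SimpleGraph.deleteEdges_le _)
  let F : Finset (Sym2 V) := A.biUnion (fun a => G.incidenceFinset a)
  have hiso : ∀ a ∈ A, ∀ b, ¬ (G.deleteEdges (F : Set (Sym2 V))).Adj a b := by
    intro a ha b hab
    rw [SimpleGraph.deleteEdges_adj] at hab
    apply hab.2
    rw [Finset.mem_coe, Finset.mem_biUnion]
    refine ⟨a, ha, ?_⟩
    rw [SimpleGraph.mem_incidenceFinset]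
    exact ⟨hab.1, by simp⟩
  have hlow : k ≤ pathCoverNumber (G.deleteEdges (F : Set (Sym2 V))) := by
    rw [← hA]
    exact card_lt_pcn _ A hiso (by omega)
  obtain ⟨F', hF', hk'⟩ := exists_between G k F hGk hlow
  have h5 : F'.card ∈ deletionSizes G k := by
    refine ⟨F', ?_, rfl, hk'⟩
    intro e he
    have : e ∈ F := hF' he
    obtain ⟨a, -, h6⟩ := Finset.mem_biUnion.mp this
    rw [SimpleGraph.mem_incidenceFinset] at h6
    exact h6.1
  calc m ≤ F'.card := hleast h5
    _ ≤ F.card := Finset.card_le_card hF'
    _ ≤ ∑ a ∈ A, (G.incidenceFinset a).card := Finset.card_biUnion_le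
    _ = ∑ a ∈ A, G.degree a := by
        apply Finset.sum_congr rfl
        intro a _
        exact G.card_incidenceFinset_eq_degree a

end Pool.Agent.X59.PC
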