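import Pool.Agent.X59.PC.Det
import Pool.Agent.W963.LogDepth.Chern

set_option autoImplicit false

/-! Degrees of the binomial random graph. -/

namespace Pool.Agent.X59.PC

open Finset Filter Topology Pool.Agent.W166.Gnp Pool.Agent.W963.LogDepth

/-- lower tail -/
theorem card_lower {α : Type} [DecidableEq α] {E Z : Finset α} (hZ : Z ⊆ E) {p : ℝ} (h0 : 0 ≤ p)
    (h1 : p ≤ 1) {ε : ℝ} (he : 0 ≤ ε) (he1 : ε ≤ 1) :
    Pr E p (fun S => ((S ∩ Z).card : ℝ) ≤ (1 - ε) * (p * Z.card)) ≤
      Real.exp (-(ε ^ 2 / 4 * (p * Z.card))) := by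
  set μ : ℝ := p * Z.card with hμ
  have hμ0 : 0 ≤ μ := mul_nonneg h0 (Nat.cast_nonneg _)
  calc Pr E p (fun S => ((S ∩ Z).card : ℝ) ≤ (1 - ε) * μ)
      ≤ Ex E p (fun S => Real.exp (ε / 2 * ((1 - ε) * μ)) * Real.exp (-(ε / 2)) ^ (S ∩ Z).card) := by
        apply Pr_le_Ex h0 h1
        · intro S _; positivity
        · intro S _ hS
          rw [← Real.exp_nat_mul, ← Real.exp_add]
          apply Real.one_le_exp
          nlinarith
    _ = Real.exp (ε / 2 * ((1 - ε) * μ)) * (p * Real.exp (-(ε / 2)) + (1 - p)) ^ Z.card := by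
        rw [Ex_smul, Ex_pow_card hZ]
    _ ≤ Real.exp (ε / 2 * ((1 - ε) * μ)) *
          Real.exp (p * (-(ε / 2) + (ε / 2) ^ 2)) ^ Z.card := by
        apply mul_le_mul_of_nonneg_left _ (Real.exp_pos _).le
        apply pow_le_pow_left₀
        · have := Real.exp_pos (-(ε / 2))
          have := mul_nonneg h0 this.le
          linarith
        · have h2 : Real.exp (-(ε / 2)) ≤ 1 - ε / 2 + (ε / 2) ^ 2 := by
            have h3 := Real.abs_exp_sub_one_sub_id_le (x := -(ε / 2)) (by
              rw [abs_neg, abs_of_nonneg (by linarith)]; linarith)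
            have := (abs_le.mp h3).2
            nlinarith
          have h8 := Real.add_one_le_exp (p * (-(ε / 2) + (ε / 2) ^ 2))
          nlinarith
    _ = Real.exp (μ * (-(ε / 2) + (ε / 2) ^ 2) + ε / 2 * ((1 - ε) * μ)) := by
        rw [← Real.exp_nat_mul, ← Real.exp_add]
        congr 1
        rw [hμ]
        ring
    _ ≤ Real.exp (-(ε ^ 2 / 4 * μ)) := by
        apply Real.exp_le_exp.mpr
        nlinarith

/-- The edge set of the complete graph. -/
noncomputable def allE (n : ℕ) : Finset (Sym2 (Fin n)) := (⊤ : SimpleGraph (Fin n)).edgeFinset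

/-- The edges at `v`. -/
noncomputable def star {n : ℕ} (v : Fin n) : Finset (Sym2 (Fin n)) :=
  (⊤ : SimpleGraph (Fin n)).incidenceFinset v

theorem star_sub {n : ℕ} (v : Fin n) : star v ⊆ allE n :=
  SimpleGraph.incidenceFinset_subset _ v

theorem card_star {n : ℕ} (v : Fin n) : (star v).card = n - 1 := by
  unfold star
  rw [SimpleGraph.card_incidenceFinset_eq_degree, SimpleGraph.complete_graph_degree]
  simp

open Classical in
theorem degree_eq {n : ℕ} {S : Finset (Sym2 (Fin n))} (hS : S ⊆ allE n) (v : Fin n) :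
    (SimpleGraph.fromEdgeSet (S : Set (Sym2 (Fin n)))).degree v = (S ∩ star v).card := by
  rw [← SimpleGraph.card_incidenceFinset_eq_degree]
  congr 1
  ext e
  rw [SimpleGraph.mem_incidenceFinset, Finset.mem_inter]
  constructor
  · rintro ⟨h1, h2⟩
    rw [SimpleGraph.edgeSet_fromEdgeSet] at h1
    have h3 : e ∈ S := h1.1
    refine ⟨h3, ?_⟩
    unfold star
    rw [SimpleGraph.mem_incidenceFinset]
    have h4 := hS h3
    unfold allE at h4
    rw [SimpleGraph.mem_edgeFinset] at h4
    exact ⟨h4, h2⟩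
  · rintro ⟨h1, h2⟩
    unfold star at h2
    rw [SimpleGraph.mem_incidenceFinset] at h2
    refine ⟨?_, h2.2⟩
    rw [SimpleGraph.edgeSet_fromEdgeSet]
    refine ⟨h1, ?_⟩
    have h4 := h2.1
    exact SimpleGraph.not_isDiag_of_mem_edgeSet _ h4

theorem degree_ncard {V : Type*} (G : SimpleGraph V) (v : V) [Fintype (G.neighborSet v)] :
    G.degree v = (G.neighborSet v).ncard := by
  rw [← SimpleGraph.card_neighborSet_eq_degree, Set.ncard_eq_toFinset_card', Set.toFinset_card]

theorem ncard_eq {n : ℕ} {S : Finset (Sym2 (Fin n))} (hS : S ⊆ allE n) (v : Fin n) :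
    ((SimpleGraph.fromEdgeSet (S : Set (Sym2 (Fin n)))).neighborSet v).ncard
      = (S ∩ star v).card := by
  classical
  rw [← degree_ncard, degree_eq hS v]

/-- The law of the binomial random graph as a finite sum. -/
theorem binomial_le (n : ℕ) (p : unitInterval) (A : Set (SimpleGraph (Fin n))) :
    SimpleGraph.binomialRandom (Fin n) p A ≤
      ENNReal.ofReal (Pr (allE n) p (fun S => SimpleGraph.fromEdgeSet (S : Set (Sym2 (Fin n))) ∈ A)) := by
  classical
  have h0 : (0 : ℝ) ≤ p := p.2.1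
  have h1 : (p : ℝ) ≤ 1 := p.2.2
  let T : Finset (Finset (Sym2 (Fin n))) := (allE n).powerset.filter
    (fun S => SimpleGraph.fromEdgeSet (S : Set (Sym2 (Fin n))) ∈ A)
  have hA : A ⊆ ⋃ S ∈ T, {SimpleGraph.fromEdgeSet (S : Set (Sym2 (Fin n)))} := by
    intro G hG
    rw [Set.mem_iUnion₂]
    refine ⟨G.edgeFinset, ?_, ?_⟩
    · rw [Finset.mem_filter, Finset.mem_powerset]
      refine ⟨?_, ?_⟩
      · unfold allE
        exact SimpleGraph.edgeFinset_mono le_top
      · rw [SimpleGraph.coe_edgeFinset, SimpleGraph.fromEdgeSet_edgeSet]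
        exact hG
    · rw [SimpleGraph.coe_edgeFinset, SimpleGraph.fromEdgeSet_edgeSet]
      exact rfl
  have hterm : ∀ S ∈ T, SimpleGraph.binomialRandom (Fin n) p
      {SimpleGraph.fromEdgeSet (S : Set (Sym2 (Fin n)))} =
      ENNReal.ofReal ((p : ℝ) ^ S.card * (1 - (p : ℝ)) ^ ((allE n).card - S.card)) := by
    intro S hS
    rw [Finset.mem_filter, Finset.mem_powerset] at hS
    have hES : (SimpleGraph.fromEdgeSet (S : Set (Sym2 (Fin n)))).edgeSet = S := by
      rw [SimpleGraph.edgeSet_fromEdgeSet]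
      apply Set.Subset.antisymm Set.sdiff_subset
      intro e he
      refine ⟨he, ?_⟩
      have h4 := hS.1 he
      unfold allE at h4
      rw [SimpleGraph.mem_edgeFinset] at h4
      exact SimpleGraph.not_isDiag_of_mem_edgeSet _ h4
    have hcard : (allE n).card = (Nat.card (Fin n)).choose 2 := by
      unfold allE
      rw [SimpleGraph.card_edgeFinset_top_eq_card_choose_two]
      simp
    rw [SimpleGraph.binomialRandom_singleton, hES, Set.ncard_coe_finset, hcard]
    rw [ENNReal.ofReal_mul (pow_nonneg h0 _), ENNReal.ofReal_pow h0,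
      ENNReal.ofReal_pow (by linarith)]
    congr 2
    · congr 1
      exact NNReal.eq (Real.coe_toNNReal _ h0).symm
    · congr 1
      exact NNReal.eq (Real.coe_toNNReal _ (by linarith)).symm
  calc SimpleGraph.binomialRandom (Fin n) p A
      ≤ SimpleGraph.binomialRandom (Fin n) p
          (⋃ S ∈ T, {SimpleGraph.fromEdgeSet (S : Set (Sym2 (Fin n)))}) :=
        MeasureTheory.measure_mono hA
    _ ≤ ∑ S ∈ T, SimpleGraph.binomialRandom (Fin n) p
          {SimpleGraph.fromEdgeSet (S : Set (Sym2 (Fin n)))} :=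
        MeasureTheory.measure_biUnion_finset_le _ _
    _ = ∑ S ∈ T, ENNReal.ofReal ((p : ℝ) ^ S.card * (1 - (p : ℝ)) ^ ((allE n).card - S.card)) :=
        Finset.sum_congr rfl hterm
    _ = ENNReal.ofReal (∑ S ∈ T, (p : ℝ) ^ S.card * (1 - (p : ℝ)) ^ ((allE n).card - S.card)) := by
        rw [ENNReal.ofReal_sum_of_nonneg]
        intro S _
        exact wt_nonneg _ _ h0 h1
    _ = _ := by
        congr 1
        unfold Pr Ex
        rw [Finset.sum_filter]
        apply Finset.sum_congr rfl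
        intro S _
        by_cases hSA : SimpleGraph.fromEdgeSet (S : Set (Sym2 (Fin n))) ∈ A <;> simp [hSA]

/-- A vertex degree is unusual: some degree is low or some degree is high. -/
theorem bad_le (n : ℕ) {p : ℝ} (h0 : 0 ≤ p) (h1 : p ≤ 1) {ε : ℝ} (he : 0 ≤ ε)
    (he1 : ε ≤ 1) :
    Pr (allE n) p (fun S => (∃ v ∈ (Finset.univ : Finset (Fin n)),
        ((S ∩ star v).card : ℝ) ≤ (1 - ε) * (p * (n - 1 : ℕ))) ∨
      (∃ v ∈ (Finset.univ : Finset (Fin n)), (1 + ε) * (p * (n - 1 : ℕ)) ≤ ((S ∩ star v).card : ℝ)))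
      ≤ 2 * n * Real.exp (-(ε ^ 2 / 4 * (p * (n - 1 : ℕ)))) := by
  calc _ ≤ Pr (allE n) p (fun S => ∃ v ∈ (Finset.univ : Finset (Fin n)),
        ((S ∩ star v).card : ℝ) ≤ (1 - ε) * (p * (n - 1 : ℕ))) +
      Pr (allE n) p (fun S => ∃ v ∈ (Finset.univ : Finset (Fin n)),
        (1 + ε) * (p * (n - 1 : ℕ)) ≤ ((S ∩ star v).card : ℝ)) := Pr_or_le h0 h1 _ _
    _ ≤ ∑ v : Fin n, Real.exp (-(ε ^ 2 / 4 * (p * (n - 1 : ℕ)))) +
        ∑ v : Fin n, Real.exp (-(ε ^ 2 / 4 * (p * (n - 1 : ℕ)))) := by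
        apply add_le_add
        · refine (Pr_exists_le h0 h1 _ _).trans (Finset.sum_le_sum fun v _ => ?_)
          have := card_lower (star_sub v) h0 h1 he he1
          rw [card_star] at this
          exact this
        · refine (Pr_exists_le h0 h1 _ _).trans (Finset.sum_le_sum fun v _ => ?_)
          have := card_upper (star_sub v) h0 h1 he he1 (le_refl (p * ((star v).card : ℝ)))
          rw [card_star] at this
          exact this
    _ = 2 * n * Real.exp (-(ε ^ 2 / 4 * (p * (n - 1 : ℕ)))) := by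
        rw [Finset.sum_const, Finset.card_univ, Fintype.card_fin, nsmul_eq_mul]
        ring

end Pool.Agent.X59.PC
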